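import Mathlib

set_option autoImplicit false

open scoped BoundedContinuousFunction

/-!
Two inequalities for a positive unital operator `L` on bounded functions on `ℕ`, with a set `Λ`
of lazy states.
-/

namespace Pool.Agent.H587Z.Markov

abbrev F := ℕ →ᵇ ℝ

lemma ap_add (f g : F) (x : ℕ) : (f + g) x = f x + g x := rfl
lemma ap_sub (f g : F) (x : ℕ) : (f - g) x = f x - g x := rfl
lemma ap_mul (f g : F) (x : ℕ) : (f * g) x = f x * g x := rfl
lemma ap_smul (c : ℝ) (f : F) (x : ℕ) : (c • f) x = c * f x := rfl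
lemma ap_one (x : ℕ) : (1 : F) x = 1 := rfl
lemma ap_zero (x : ℕ) : (0 : F) x = 0 := rfl

open Classical in
noncomputable def ind (Λ : Set ℕ) : F :=
  BoundedContinuousFunction.ofNormedAddCommGroupDiscrete (fun x => if x ∈ Λ then 1 else 0) 1 (by
    intro x
    split_ifs <;> simp)

lemma ind_mem {Λ : Set ℕ} {x : ℕ} (h : x ∈ Λ) : ind Λ x = 1 := by simp [ind, h]

lemma ind_not {Λ : Set ℕ} {x : ℕ} (h : x ∉ Λ) : ind Λ x = 0 := by simp [ind, h]

lemma ind_nonneg (Λ : Set ℕ) (x : ℕ) : 0 ≤ ind Λ x := by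
  by_cases h : x ∈ Λ
  · rw [ind_mem h]; exact zero_le_one
  · rw [ind_not h]

lemma ind_le_one (Λ : Set ℕ) (x : ℕ) : ind Λ x ≤ 1 := by
  by_cases h : x ∈ Λ
  · rw [ind_mem h]
  · rw [ind_not h]; exact zero_le_one

structure IsMk (L : F →ₗ[ℝ] F) : Prop where
  pos : ∀ f : F, (∀ x, 0 ≤ f x) → ∀ x, 0 ≤ L f x
  one : L 1 = 1

variable {L : F →ₗ[ℝ] F}

lemma IsMk.mono (h : IsMk L) {f g : F} (hfg : ∀ x, f x ≤ g x) (x : ℕ) : L f x ≤ L g x := by
  have := h.pos (g - f) (fun y => by simpa using hfg y) x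
  simpa [map_sub] using this

/-- survival probability under killing with probability `η` at each visit of `Λ` -/
noncomputable def kk (L : F →ₗ[ℝ] F) (Λ : Set ℕ) (η : ℝ) : ℕ → F
  | 0 => 1
  | m + 1 => (1 - η • ind Λ) * L (kk L Λ η m)

/-- expected number of visits of `Λ` -/
noncomputable def gg (L : F →ₗ[ℝ] F) (Λ : Set ℕ) : ℕ → F
  | 0 => 0
  | m + 1 => ind Λ + L (gg L Λ m)

lemma kk_bounds (h : IsMk L) (Λ : Set ℕ) {η : ℝ} (h0 : 0 ≤ η) (h1 : η ≤ 1) (m : ℕ) :
    ∀ x, 0 ≤ kk L Λ η m x ∧ kk L Λ η m x ≤ 1 := by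
  induction m with
  | zero => intro x; simp [kk]
  | succ m ih =>
    intro x
    have a := h.pos _ (fun y => (ih y).1) x
    have b := h.mono (g := 1) (fun y => by simpa using (ih y).2) x
    rw [h.one] at b
    have c := ind_nonneg Λ x
    have d := ind_le_one Λ x
    simp only [kk, ap_mul, ap_sub, ap_one, ap_smul] at b ⊢
    have e : 0 ≤ η * ind Λ x := mul_nonneg h0 c
    have e' : η * ind Λ x ≤ 1 := by nlinarith
    constructor
    · exact mul_nonneg (by linarith) a
    · nlinarith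

lemma gg_le (h : IsMk L) (Λ : Set ℕ) (m : ℕ) : ∀ x, gg L Λ m x ≤ m := by
  induction m with
  | zero => intro x; simp [gg]
  | succ m ih =>
    intro x
    have b := h.mono (f := gg L Λ m) (g := (m : ℝ) • (1 : F)) (fun y => by simpa using ih y) x
    rw [map_smul, h.one] at b
    have d := ind_le_one Λ x
    simp only [gg, ap_add, ap_smul, ap_one, mul_one] at b ⊢
    push_cast
    linarith

lemma var_ineq (h : IsMk L) (H : F) (x : ℕ) :
    L ((H - (L H x) • (1 : F)) * (H - (L H x) • (1 : F))) x = L (H * H) x - (L H x) ^ 2 := by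
  have : (H - (L H x) • (1 : F)) * (H - (L H x) • (1 : F))
      = H * H - (2 * L H x) • H + (L H x) ^ 2 • (1 : F) := by
    ext y
    simp only [ap_mul, ap_sub, ap_add, ap_smul, ap_one]
    ring
  rw [this, map_add, map_sub, map_smul, map_smul, h.one]
  simp only [ap_sub, ap_add, ap_smul, ap_one]
  ring

lemma var_nonneg (h : IsMk L) (H : F) (x : ℕ) : (L H x) ^ 2 ≤ L (H * H) x := by
  have := h.pos ((H - (L H x) • (1 : F)) * (H - (L H x) • (1 : F)))
    (fun y => by simp only [ap_mul]; exact mul_self_nonneg _) x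
  rw [var_ineq h] at this
  linarith

lemma iter_bound (h : IsMk L) {f : F} {a b : ℝ} (hf : ∀ x, a ≤ f x ∧ f x ≤ b) (m : ℕ) :
    ∀ x, a ≤ (L^[m] f) x ∧ (L^[m] f) x ≤ b := by
  induction m with
  | zero => exact hf
  | succ m ih =>
    intro x
    rw [Function.iterate_succ_apply']
    have b1 := h.mono (f := L^[m] f) (g := b • (1 : F)) (fun y => by simpa using (ih y).2) x
    have a1 := h.mono (g := L^[m] f) (f := a • (1 : F)) (fun y => by simpa using (ih y).1) x
    rw [map_smul, h.one] at a1 b1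
    simp only [ap_smul, ap_one, mul_one] at a1 b1
    exact ⟨a1, b1⟩

lemma smooth_aux (h : IsMk L) {Λ : Set ℕ} {ε : ℝ} (hε : 0 < ε) (hε1 : ε ≤ 1)
    (hl : ∀ f : F, (∀ x, 0 ≤ f x) → ∀ x ∈ Λ, f x ≤ 2 * L f x) {f : F}
    (hf : ∀ x, -1 ≤ f x ∧ f x ≤ 1) (m : ℕ) :
    ∀ x, |(L^[m + 1] f) x - (L^[m] f) x| ≤ 2 * kk L Λ (ε ^ 2 / 2) m x
      + ε * (1 - kk L Λ (ε ^ 2 / 2) m x)
      + ε * ((L^[m + 1] (f * f)) x - ((L^[m + 1] f) x) ^ 2) := by
  have hη0 : 0 ≤ ε ^ 2 / 2 := by positivity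
  have hη1 : ε ^ 2 / 2 ≤ 1 := by nlinarith
  induction m with
  | zero =>
    intro x
    have a := iter_bound h hf 1 x
    have b := hf x
    have c := var_nonneg h f x
    simp only [kk, ap_one, zero_add, Function.iterate_one, Function.iterate_zero,
      id_eq] at a ⊢
    have : 0 ≤ ε * (L (f * f) x - (L f x) ^ 2) := mul_nonneg hε.le (by linarith)
    rw [abs_le]
    constructor <;> linarith [a.1, a.2, b.1, b.2]
  | succ m ih =>
    intro x
    set H := L^[m + 1] f with hH
    set G := L^[m] f with hG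
    set Q := L^[m + 1] (f * f) with hQ
    set k := kk L Λ (ε ^ 2 / 2) m with hk
    have hHG : L G = H := by rw [hH, Function.iterate_succ_apply']
    have e1 : L^[m + 1 + 1] f = L H := by rw [Function.iterate_succ_apply']
    have e2 : L^[m + 1 + 1] (f * f) = L Q := by rw [Function.iterate_succ_apply']
    rw [e1, e2]
    let U : F := (2 : ℝ) • k + ε • (1 - k) + ε • (Q - H * H)
    have hU : ∀ y, |H y - G y| ≤ U y := by
      intro y
      have := ih y
      simp only [U, ap_add, ap_smul, ap_sub, ap_mul, ap_one]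
      nlinarith
    have hLU : L U x = 2 * L k x + ε * (1 - L k x) + ε * (L Q x - L (H * H) x) := by
      simp only [U, map_add, map_smul, map_sub, h.one, ap_add, ap_smul, ap_sub, ap_one]
    have up := h.mono (f := H - G) (g := U) (fun y => by
      simpa using (abs_le.1 (hU y)).2) x
    have lo := h.mono (f := G - H) (g := U) (fun y => by
      have := (abs_le.1 (hU y)).1
      simp only [ap_sub]
      linarith) x
    rw [map_sub, hHG, hLU] at up lo
    simp only [ap_sub] at up lo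
    have hd : |L H x - H x| ≤ 2 * L k x + ε * (1 - L k x) + ε * (L Q x - L (H * H) x) := by
      rw [abs_le]
      constructor <;> linarith
    have hv := var_nonneg h H x
    have hQH : L (H * H) x ≤ L Q x := by
      refine h.mono (fun y => ?_) x
      clear ih hU hLU up lo hd hv
      have key : ∀ n : ℕ, ∀ z, ((L^[n] f) z) ^ 2 ≤ (L^[n] (f * f)) z := by
        intro n
        induction n with
        | zero => intro z; simp [sq]
        | succ n ihn =>
          intro z
          rw [Function.iterate_succ_apply', Function.iterate_succ_apply']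
          refine (var_nonneg h _ z).trans (h.mono (fun w => ?_) z)
          simpa [sq] using ihn w
      have := key (m + 1) y
      rw [sq] at this
      exact this
    by_cases hx : x ∈ Λ
    · have hlz := hl ((H - (L H x) • (1 : F)) * (H - (L H x) • (1 : F)))
        (fun y => by simp only [ap_mul]; exact mul_self_nonneg _) x hx
      rw [var_ineq h] at hlz
      simp only [ap_mul, ap_sub, ap_smul, ap_one,
        mul_one] at hlz
      have hkk : kk L Λ (ε ^ 2 / 2) (m + 1) x = (1 - ε ^ 2 / 2) * L k x := by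
        simp only [kk, ap_mul, ap_sub, ap_smul, ap_one,
          ind_mem hx, mul_one, hk]
      rw [hkk]
      set d := |L H x - H x| with hdd
      have hd2 : d ^ 2 = (H x - L H x) * (H x - L H x) := by rw [hdd, sq_abs]; ring
      have hd0 : 0 ≤ d := abs_nonneg _
      have am : ε * d ≤ ε ^ 2 + d ^ 2 := by nlinarith [sq_nonneg (ε - d)]
      have s1 : ε ^ 2 / 2 * d ≤ ε ^ 2 / 2 * ε + ε * (L (H * H) x - (L H x) ^ 2) := by
        have : ε * (ε * d) ≤ ε * (ε ^ 2 + d ^ 2) := mul_le_mul_of_nonneg_left am hε.le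
        have t2 : ε * d ^ 2 ≤ ε * (2 * (L (H * H) x - (L H x) ^ 2)) :=
          mul_le_mul_of_nonneg_left (by linarith) hε.le
        nlinarith
      have s2 : (1 - ε ^ 2 / 2) * d ≤ (1 - ε ^ 2 / 2) *
          (2 * L k x + ε * (1 - L k x) + ε * (L Q x - L (H * H) x)) :=
        mul_le_mul_of_nonneg_left hd (by linarith)
      have s3 : 0 ≤ ε ^ 2 / 2 * (ε * (L Q x - L (H * H) x)) :=
        mul_nonneg hη0 (mul_nonneg hε.le (by linarith))
      nlinarith
    · have hkk : kk L Λ (ε ^ 2 / 2) (m + 1) x = L k x := by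
        simp only [kk, ap_mul, ap_sub, ap_smul, ap_one,
          ind_not hx, mul_zero, sub_zero, one_mul, hk]
      rw [hkk]
      have : 0 ≤ ε * (L (H * H) x - (L H x) ^ 2) := mul_nonneg hε.le (by linarith)
      nlinarith

lemma smooth (h : IsMk L) {Λ : Set ℕ} {ε : ℝ} (hε : 0 < ε) (hε1 : ε ≤ 1)
    (hl : ∀ f : F, (∀ x, 0 ≤ f x) → ∀ x ∈ Λ, f x ≤ 2 * L f x) {f : F}
    (hf : ∀ x, -1 ≤ f x ∧ f x ≤ 1) (m : ℕ) (x : ℕ) :
    (L^[m + 1] f) x - (L^[m] f) x ≤ 2 * kk L Λ (ε ^ 2 / 2) m x + 2 * ε := by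
  have a := smooth_aux h hε hε1 hl hf m x
  have b := (kk_bounds h Λ (η := ε ^ 2 / 2) (by positivity) (by nlinarith) m x).1
  have c := (iter_bound h (f := f * f) (a := 0) (b := 1) (fun y => by
    have := hf y
    simp only [ap_mul]
    constructor <;> nlinarith [this.1, this.2]) (m + 1) x).2
  have d := le_abs_self ((L^[m + 1] f) x - (L^[m] f) x)
  have e := sq_nonneg ((L^[m + 1] f) x)
  nlinarith

lemma visits (h : IsMk L) {Λ : Set ℕ} {η V : ℝ} (h0 : 0 < η) (h1 : η ≤ 1) (hV : 0 ≤ V) (n : ℕ)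
    (hg : ∀ m ≤ n, ∀ a ∈ Λ, gg L Λ m a ≤ V) :
    ∀ m ≤ n, ∀ x, gg L Λ m x ≤ (1 / η + V) * (1 - kk L Λ η m x) := by
  intro m
  induction m with
  | zero => intro _ x; simp [gg, kk]
  | succ m ih =>
    intro hm x
    have a := h.mono (f := gg L Λ m) (g := (1 / η + V) • (1 - kk L Λ η m)) (fun y => by
      simpa using ih (by omega) y) x
    rw [map_smul, map_sub, h.one] at a
    simp only [ap_smul, ap_sub, ap_one] at a
    by_cases hx : x ∈ Λ
    · have b := hg (m + 1) hm x hx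
      simp only [gg, kk, ap_add, ap_mul, ap_sub, ap_smul, ap_one, ind_mem hx, mul_one] at b ⊢
      have e : (1 / η + V) * η = 1 + η * V := by field_simp
      have s1 := mul_le_mul_of_nonneg_left b h0.le
      have s2 := mul_le_mul_of_nonneg_left a (sub_nonneg.2 h1)
      nlinarith
    · simp only [gg, kk, ap_add, ap_mul, ap_sub, ap_smul, ap_one, ind_not hx, mul_zero, sub_zero, one_mul, zero_add]
      exact a

lemma visits_bound (h : IsMk L) {Λ : Set ℕ} {η c : ℝ} (h0 : 0 < η) (h1 : η ≤ 1) (hc : 0 < c)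
    (hc1 : c ≤ 1) (n : ℕ) (hk : ∀ m ≤ n, ∀ a ∈ Λ, c ≤ kk L Λ η m a) (x : ℕ) :
    gg L Λ n x ≤ 1 / (c * η) := by
  let S : Set ℝ := {r | r = 0 ∨ ∃ m ≤ n, ∃ a ∈ Λ, r = gg L Λ m a}
  have hS : BddAbove S := by
    refine ⟨n, ?_⟩
    rintro r (rfl | ⟨m, hm, a, -, rfl⟩)
    · positivity
    · exact (gg_le h Λ m a).trans (by exact_mod_cast hm)
  have hV0 : 0 ≤ sSup S := le_csSup hS (Or.inl rfl)
  have hg : ∀ m ≤ n, ∀ a ∈ Λ, gg L Λ m a ≤ sSup S :=
    fun m hm a ha => le_csSup hS (Or.inr ⟨m, hm, a, ha, rfl⟩)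
  have hv := visits h h0 h1 hV0 n hg
  have hpos : 0 ≤ 1 / η + sSup S := by positivity
  have hV : sSup S ≤ (1 / η + sSup S) * (1 - c) := by
    refine csSup_le ⟨0, Or.inl rfl⟩ ?_
    rintro r (rfl | ⟨m, hm, a, ha, rfl⟩)
    · exact mul_nonneg hpos (by linarith)
    · exact (hv m hm a).trans (mul_le_mul_of_nonneg_left (by linarith [hk m hm a ha]) hpos)
  have b := (kk_bounds h Λ h0.le h1 n x).1
  have e : gg L Λ n x ≤ 1 / η + sSup S := (hv n le_rfl x).trans (by nlinarith)
  refine e.trans ?_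
  have : 1 / (c * η) = (1 / η) / c := by field_simp
  rw [this, le_div_iff₀ hc]
  nlinarith

end Pool.Agent.H587Z.Markov
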