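import Mathlib
import Pool.Agent.H587Z.Markov.Abstract

set_option autoImplicit false

open scoped BoundedContinuousFunction

namespace Pool.Agent.H587Z.Markov

abbrev E := lp (fun _ : ℕ => ℝ) 1

noncomputable def ee (x : ℕ) : E := lp.single 1 x (1 : ℝ)

lemma ee_self (x : ℕ) : ee x x = 1 := lp.single_apply_self _ _ _

lemma ee_ne {x y : ℕ} (h : y ≠ x) : ee x y = 0 := lp.single_apply_ne _ _ _ h

lemma ee_nonneg (x y : ℕ) : 0 ≤ ee x y := by
  by_cases h : y = x
  · rw [h, ee_self]; exact zero_le_one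
  · rw [ee_ne h]

lemma norm_ee (x : ℕ) : ‖ee x‖ = 1 := by
  rw [ee, lp.norm_single (by norm_num)]
  simp

lemma hasSum_abs (v : E) : HasSum (fun i => |v i|) ‖v‖ := by
  simpa using lp.hasSum_norm (p := 1) (by simp) v

lemma abs_mul_le (f : F) (v : E) (y : ℕ) : ‖v y * f y‖ ≤ ‖f‖ * |v y| := by
  rw [norm_mul, mul_comm]
  exact mul_le_mul_of_nonneg_right (f.norm_coe_le_norm y) (norm_nonneg _)

lemma summable_mul (f : F) (v : E) : Summable (fun y => v y * f y) :=
  Summable.of_norm_bounded ((hasSum_abs v).summable.mul_left ‖f‖) (abs_mul_le f v)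

noncomputable def pr (f : F) : E →L[ℝ] ℝ :=
  LinearMap.mkContinuous
    { toFun := fun v => ∑' y, v y * f y
      map_add' := fun v w => by
        rw [← (summable_mul f v).tsum_add (summable_mul f w)]
        refine tsum_congr (fun y => ?_)
        simp [add_mul]
      map_smul' := fun c v => by
        simp only [RingHom.id_apply, smul_eq_mul]
        rw [← tsum_mul_left]
        refine tsum_congr (fun y => ?_)
        simp [mul_assoc] } ‖f‖
    (fun v => tsum_of_norm_bounded ((hasSum_abs v).mul_left ‖f‖) (abs_mul_le f v))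

lemma pr_apply (f : F) (v : E) : pr f v = ∑' y, v y * f y := rfl

lemma pr_le (f : F) (v : E) : ‖pr f v‖ ≤ ‖f‖ * ‖v‖ :=
  tsum_of_norm_bounded ((hasSum_abs v).mul_left ‖f‖) (abs_mul_le f v)

lemma pr_add (f g : F) (v : E) : pr (f + g) v = pr f v + pr g v := by
  rw [pr_apply, pr_apply, pr_apply, ← (summable_mul f v).tsum_add (summable_mul g v)]
  refine tsum_congr (fun y => ?_)
  rw [ap_add, mul_add]

lemma pr_smul (c : ℝ) (f : F) (v : E) : pr (c • f) v = c * pr f v := by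
  rw [pr_apply, pr_apply, ← tsum_mul_left]
  refine tsum_congr (fun y => ?_)
  rw [ap_smul]
  ring

lemma pr_zero (v : E) : pr 0 v = 0 := by
  simp [pr_apply]

lemma pr_sub (f g : F) (v : E) : pr (f - g) v = pr f v - pr g v := by
  have := pr_add (f - g) g v
  rw [sub_add_cancel] at this
  linarith

lemma pr_sum (s : Finset ℕ) (f : ℕ → F) (v : E) : pr (∑ j ∈ s, f j) v = ∑ j ∈ s, pr (f j) v := by
  classical
  induction s using Finset.induction_on with
  | empty => simp [pr_zero]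
  | insert a s ha ih => rw [Finset.sum_insert ha, Finset.sum_insert ha, pr_add, ih]

lemma pr_mono {f g : F} (h : ∀ x, f x ≤ g x) {v : E} (hv : ∀ n, 0 ≤ v n) : pr f v ≤ pr g v :=
  (summable_mul f v).tsum_le_tsum (fun y => mul_le_mul_of_nonneg_left (h y) (hv y))
    (summable_mul g v)

lemma pr_ee (f : F) (x : ℕ) : pr f (ee x) = f x := by
  rw [pr_apply, tsum_eq_single x (fun y hy => by rw [ee_ne hy, zero_mul]), ee_self, one_mul]

lemma pr_one {v : E} (hv : ∀ n, 0 ≤ v n) : pr 1 v = ‖v‖ := by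
  rw [pr_apply, ← (hasSum_abs v).tsum_eq]
  refine tsum_congr (fun y => ?_)
  rw [ap_one, mul_one, abs_of_nonneg (hv y)]

lemma exists_sign (v : E) : ∃ f : F, (∀ x, -1 ≤ f x ∧ f x ≤ 1) ∧ pr f v = ‖v‖ := by
  refine ⟨(2 : ℝ) • ind {y | 0 ≤ v y} - 1, fun x => ?_, ?_⟩
  · have a := ind_nonneg {y | 0 ≤ v y} x
    have b := ind_le_one {y | 0 ≤ v y} x
    rw [ap_sub, ap_smul, ap_one]
    constructor <;> linarith
  · rw [pr_apply, ← (hasSum_abs v).tsum_eq]
    refine tsum_congr (fun y => ?_)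
    rw [ap_sub, ap_smul, ap_one]
    by_cases h : 0 ≤ v y
    · rw [ind_mem (Λ := {y | 0 ≤ v y}) h, abs_of_nonneg h]; ring
    · rw [ind_not (Λ := {y | 0 ≤ v y}) h, abs_of_neg (not_le.1 h)]; ring

lemma hasSum_ee (v : E) : HasSum (fun x => v x • ee x) v := by
  have := lp.hasSum_single (p := 1) (by simp) v
  convert this using 2 with x
  rw [ee, ← lp.single_smul, smul_eq_mul, mul_one]

lemma clm_hasSum {X : Type} [NormedAddCommGroup X] [NormedSpace ℝ X] (S : E →L[ℝ] X) (v : E) :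
    HasSum (fun x => v x • S (ee x)) (S v) := by
  simpa using (hasSum_ee v).mapL S

lemma norm_le_of_ee (S : E →L[ℝ] E) {c : ℝ} (h : ∀ x, ‖S (ee x)‖ ≤ c) (v : E) :
    ‖S v‖ ≤ c * ‖v‖ := by
  rw [← (clm_hasSum S v).tsum_eq]
  refine tsum_of_norm_bounded ((hasSum_abs v).mul_left c) (fun x => ?_)
  rw [norm_smul, mul_comm]
  exact mul_le_mul_of_nonneg_right (h x) (norm_nonneg _)

noncomputable def dual (P : E →L[ℝ] E) : F →ₗ[ℝ] F where
  toFun f := BoundedContinuousFunction.ofNormedAddCommGroupDiscrete (fun x => pr f (P (ee x)))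
    (‖f‖ * ‖P‖) (fun x => (pr_le f _).trans (mul_le_mul_of_nonneg_left
      ((P.le_opNorm _).trans (by rw [norm_ee, mul_one])) (norm_nonneg _)))
  map_add' f g := by
    ext x
    exact pr_add f g _
  map_smul' c f := by
    ext x
    exact pr_smul c f _

lemma dual_apply (P : E →L[ℝ] E) (f : F) (x : ℕ) : dual P f x = pr f (P (ee x)) := rfl

lemma pr_dual (P : E →L[ℝ] E) (f : F) (v : E) : pr (dual P f) v = pr f (P v) := by
  have := (clm_hasSum ((pr f).comp P) v).tsum_eq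
  rw [pr_apply (dual P f)]
  exact this

lemma pr_iter (P : E →L[ℝ] E) (f : F) (m : ℕ) (v : E) :
    pr ((dual P)^[m] f) v = pr f (P^[m] v) := by
  induction m generalizing v with
  | zero => rfl
  | succ m ih => rw [Function.iterate_succ_apply', pr_dual, ih, Function.iterate_succ_apply]

lemma pr_gg (P : E →L[ℝ] E) (Λ : Set ℕ) (m : ℕ) (v : E) :
    pr (gg (dual P) Λ m) v = ∑ t ∈ Finset.range m, pr (ind Λ) (P^[t] v) := by
  induction m generalizing v with
  | zero => simp [gg, pr_zero]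
  | succ m ih =>
    rw [gg, pr_add, pr_dual, ih, Finset.sum_range_succ', add_comm]
    rfl

structure MkOp (P : E →L[ℝ] E) : Prop where
  pos : ∀ x : E, (∀ n, 0 ≤ x n) → ∀ n, 0 ≤ (P x) n
  norm : ∀ x : E, (∀ n, 0 ≤ x n) → ‖P x‖ = ‖x‖

variable {P : E →L[ℝ] E}

lemma MkOp.isMk (h : MkOp P) : IsMk (dual P) where
  pos f hf x := by
    rw [dual_apply, ← pr_zero (P (ee x))]
    exact pr_mono hf (h.pos _ (ee_nonneg x))
  one := by
    ext x
    rw [dual_apply, pr_one (h.pos _ (ee_nonneg x)), h.norm _ (ee_nonneg x), norm_ee, ap_one]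

lemma MkOp.contr (h : MkOp P) (v : E) : ‖P v‖ ≤ ‖v‖ := by
  have := norm_le_of_ee P (c := 1) (fun x => by rw [h.norm _ (ee_nonneg x), norm_ee]) v
  rwa [one_mul] at this

lemma MkOp.lazy (h : MkOp P) {x : ℕ} (hx : ‖P (ee x) - ee x‖ ≤ 1 / 2) (f : F)
    (hf : ∀ y, 0 ≤ f y) : f x ≤ 2 * dual P f x := by
  have a : ‖(P (ee x) - ee x) x‖ ≤ ‖P (ee x) - ee x‖ := lp.norm_apply_le_norm (by simp) _ x
  have b : (P (ee x) - ee x) x = P (ee x) x - 1 := by
    rw [lp.coeFn_sub, Pi.sub_apply, ee_self]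
  rw [b, Real.norm_eq_abs] at a
  have c := (abs_le.1 (a.trans hx)).1
  have d : P (ee x) x * f x ≤ dual P f x := by
    rw [dual_apply, pr_apply]
    exact (summable_mul f _).le_tsum x
      (fun y _ => mul_nonneg (h.pos _ (ee_nonneg x) y) (hf y))
  have := hf x
  nlinarith

lemma MkOp.smooth (h : MkOp P) {Λ : Set ℕ} (hΛ : ∀ x ∈ Λ, ‖P (ee x) - ee x‖ ≤ 1 / 2) {ε : ℝ}
    (hε : 0 < ε) (hε1 : ε ≤ 1) (m : ℕ) {v : E} (hv : ∀ n, 0 ≤ v n) (hv1 : ‖v‖ = 1) :
    ‖P^[m + 1] v - P^[m] v‖ ≤ 2 * pr (kk (dual P) Λ (ε ^ 2 / 2) m) v + 2 * ε := by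
  obtain ⟨f, hf, hf'⟩ := exists_sign (P^[m + 1] v - P^[m] v)
  rw [← hf', map_sub, ← pr_iter, ← pr_iter, ← pr_sub]
  have := pr_mono (f := (dual P)^[m + 1] f - (dual P)^[m] f)
    (g := (2 : ℝ) • kk (dual P) Λ (ε ^ 2 / 2) m + (2 * ε) • (1 : F)) (fun x => by
      rw [ap_sub, ap_add, ap_smul, ap_smul, ap_one, mul_one]
      exact Markov.smooth h.isMk hε hε1 (fun g hg y hy => h.lazy (hΛ y hy) g hg) hf m x) hv
  rwa [pr_add, pr_smul, pr_smul, pr_one hv, hv1, mul_one] at this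

end Pool.Agent.H587Z.Markov
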