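import Mathlib
import Pool.Agent.H587Z.Markov.Ell

set_option autoImplicit false

open Filter Topology

namespace Pool.Agent.H587Z.Markov

structure Sg (T : NNReal → (E →L[ℝ] E)) (C : ℝ) : Prop where
  zero : T 0 = ContinuousLinearMap.id ℝ E
  add : ∀ s t : NNReal, T (s + t) = (T s).comp (T t)
  cont : ∀ x : E, Continuous fun t : NNReal => T t x
  mk' : ∀ t, MkOp (T t)
  low : ∀ x : E, ‖x‖ ≤ C * ‖T 1 x‖
  one_le : 1 ≤ C

variable {T : NNReal → (E →L[ℝ] E)} {C : ℝ}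

lemma Sg.add_apply (h : Sg T C) (s t : NNReal) (x : E) : T (s + t) x = T s (T t x) := by
  rw [h.add]; rfl

lemma Sg.lower (h : Sg T C) {t : NNReal} (ht : t ≤ 1) (x : E) : ‖x‖ ≤ C * ‖T t x‖ := by
  refine (h.low x).trans (mul_le_mul_of_nonneg_left ?_ (by linarith [h.one_le]))
  have : T 1 x = T (1 - t) (T t x) := by rw [← h.add_apply, tsub_add_cancel_of_le ht]
  rw [this]
  exact (h.mk' _).contr _

lemma Sg.iter (h : Sg T C) (δ : NNReal) (m : ℕ) (x : E) : (T δ)^[m] x = T (m * δ) x := by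
  induction m with
  | zero => simp [h.zero]
  | succ m ih =>
    rw [Function.iterate_succ_apply', ih, ← h.add_apply]
    congr 2
    push_cast
    ring

lemma Sg.orbit_pos (h : Sg T C) (s : NNReal) (a n : ℕ) : 0 ≤ T s (ee a) n :=
  (h.mk' s).pos _ (ee_nonneg a) n

lemma Sg.orbit_norm (h : Sg T C) (s : NNReal) (a : ℕ) : ‖T s (ee a)‖ = 1 := by
  rw [(h.mk' s).norm _ (ee_nonneg a), norm_ee]

lemma Sg.surv (h : Sg T C) {δ s : NNReal} {Λ : Set ℕ}
    (hΛ : ∀ x ∈ Λ, ‖T δ (ee x) - ee x‖ ≤ 1 / 2) {ε : ℝ} (hε : 0 < ε) (hε1 : ε ≤ 1) {m a : ℕ}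
    (ha : 4 * C * ε ≤ ‖T δ (ee a) - ee a‖) (hm : m * δ + s ≤ 1) :
    ε ≤ pr (kk (dual (T δ)) Λ (ε ^ 2 / 2) m) (T s (ee a)) := by
  have a1 := (h.mk' δ).smooth hΛ hε hε1 m (h.orbit_pos s a) (h.orbit_norm s a)
  have a2 : (T δ)^[m + 1] (T s (ee a)) - (T δ)^[m] (T s (ee a))
      = T (m * δ + s) (T δ (ee a) - ee a) := by
    rw [h.iter, h.iter, map_sub, ← h.add_apply, ← h.add_apply, ← h.add_apply]
    congr 3
    push_cast
    ring
  rw [a2] at a1
  have a3 := h.lower hm (T δ (ee a) - ee a)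
  have hC := h.one_le
  have a4 : C * (4 * ε) ≤ C * ‖T (m * δ + s) (T δ (ee a) - ee a)‖ := by linarith
  have a5 := le_of_mul_le_mul_left a4 (by linarith)
  linarith

lemma Sg.level (h : Sg T C) {δ : NNReal} {ε : ℝ} (hε : 0 < ε) (hε1 : ε ≤ 1) {n : ℕ}
    (hn : n * δ ≤ 1) (s : NNReal) (a : ℕ) :
    ∑ t ∈ Finset.range n, pr (ind {b | 4 * C * ε ≤ ‖T δ (ee b) - ee b‖ ∧
      ‖T δ (ee b) - ee b‖ ≤ 1 / 2}) (T (t * δ + s) (ee a)) ≤ 1 / (ε * (ε ^ 2 / 2)) := by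
  set B := {b | 4 * C * ε ≤ ‖T δ (ee b) - ee b‖ ∧ ‖T δ (ee b) - ee b‖ ≤ 1 / 2} with hB
  have a1 := visits_bound (h.mk' δ).isMk (Λ := B) (η := ε ^ 2 / 2) (c := ε) (by positivity)
    (by nlinarith) hε hε1 n (by
      intro m hm b hb
      have := h.surv (s := 0) (Λ := B) (fun x hx => hx.2) hε hε1 hb.1 (m := m) (by
        rw [add_zero]
        exact le_trans (mul_le_mul_of_nonneg_right (by exact_mod_cast hm) zero_le) hn)
      rwa [h.zero, ContinuousLinearMap.id_apply, pr_ee] at this)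
  have a2 := pr_mono (f := gg (dual (T δ)) B n) (g := (1 / (ε * (ε ^ 2 / 2))) • (1 : F))
    (fun x => by rw [ap_smul, ap_one, mul_one]; exact a1 x) (h.orbit_pos s a)
  rw [pr_smul, pr_one (h.orbit_pos s a), h.orbit_norm, mul_one, pr_gg] at a2
  refine le_trans (le_of_eq (Finset.sum_congr rfl (fun t _ => ?_))) a2
  rw [h.iter, ← h.add_apply]

lemma Sg.base (h : Sg T C) {δ s : NNReal} {ε : ℝ} (hε : 0 < ε) (hε1 : ε ≤ 1) {m a : ℕ}
    (ha : 4 * C * ε ≤ ‖T δ (ee a) - ee a‖) (hm : m * δ + s ≤ 1) :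
    ∑ t ∈ Finset.range m, pr (ind {b | ‖T δ (ee b) - ee b‖ ≤ 1 / 2}) (T (t * δ + s) (ee a))
      ≤ 1 / (ε ^ 2 / 2) + m * (1 - ε) := by
  set B := {b | ‖T δ (ee b) - ee b‖ ≤ 1 / 2} with hB
  have a0 := h.surv (Λ := B) (fun x hx => hx) hε hε1 ha hm
  have a1 := visits (h.mk' δ).isMk (Λ := B) (η := ε ^ 2 / 2) (V := m) (by positivity)
    (by nlinarith) (by positivity) m
    (fun k hk b _ => (gg_le (h.mk' δ).isMk B k b).trans (by exact_mod_cast hk)) m le_rfl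
  have a2 := pr_mono (f := gg (dual (T δ)) B m)
    (g := (1 / (ε ^ 2 / 2) + m) • (1 - kk (dual (T δ)) B (ε ^ 2 / 2) m))
    (fun x => by rw [ap_smul, ap_sub, ap_one]; exact a1 x) (h.orbit_pos s a)
  rw [pr_smul, pr_sub, pr_one (h.orbit_pos s a), h.orbit_norm, pr_gg] at a2
  have a3 : ∑ t ∈ Finset.range m, pr (ind B) (T (t * δ + s) (ee a))
      = ∑ t ∈ Finset.range m, pr (ind B) ((T δ)^[t] (T s (ee a))) :=
    Finset.sum_congr rfl (fun t _ => by rw [h.iter, ← h.add_apply])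
  rw [a3]
  refine a2.trans ?_
  have p1 : 0 < 1 / (ε ^ 2 / 2) := by positivity
  have p2 : (0 : ℝ) ≤ m := by positivity
  nlinarith

lemma grid (φ : ℕ → ℝ) (n q : ℕ) :
    ∑ i ∈ Finset.range (n * q), φ i
      = ∑ r ∈ Finset.range q, ∑ t ∈ Finset.range n, φ (t * q + r) := by
  induction n with
  | zero => simp
  | succ n ih =>
    rw [Nat.succ_mul, Finset.sum_range_add, ih, ← Finset.sum_add_distrib]
    exact Finset.sum_congr rfl (fun r _ => by rw [Finset.sum_range_succ])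

lemma Sg.tail (h : Sg T C) (a : ℕ) {c : ℝ} (hc : 0 < c) :
    ∃ N : ℕ, ∀ t : NNReal, t ≤ 1 → 1 - c ≤ pr (ind (Set.Iio N)) (T t (ee a)) := by
  have key : TendstoUniformlyOn (fun (N : ℕ) (t : NNReal) => pr (ind (Set.Iio N)) (T t (ee a)))
      (fun _ => (1 : ℝ)) atTop (Set.Icc 0 1) := by
    refine Monotone.tendstoUniformlyOn_of_forall_tendsto isCompact_Icc
      (fun N => ((pr _).continuous.comp (h.cont _)).continuousOn) ?_ continuousOn_const ?_
    · intro t _ N N' hN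
      refine pr_mono (fun x => ?_) (h.orbit_pos t a)
      by_cases hx : x ∈ Set.Iio N
      · rw [ind_mem hx, ind_mem (Λ := Set.Iio N') (lt_of_lt_of_le hx hN)]
      · rw [ind_not hx]
        exact ind_nonneg _ _
    · intro t _
      have h1 := (hasSum_abs (T t (ee a))).tendsto_sum_nat
      rw [h.orbit_norm] at h1
      refine h1.congr (fun N => ?_)
      rw [pr_apply, tsum_eq_sum (s := Finset.range N) (fun y hy => by
        rw [ind_not (by simpa using hy), mul_zero])]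
      refine Finset.sum_congr rfl (fun y hy => ?_)
      rw [ind_mem (by simpa using hy), mul_one, abs_of_nonneg (h.orbit_pos t a y)]
  obtain ⟨N, hN⟩ := (Metric.tendstoUniformlyOn_iff.1 key c hc).exists
  refine ⟨N, fun t ht => ?_⟩
  have := hN t ⟨zero_le, ht⟩
  rw [Real.dist_eq] at this
  linarith [(abs_lt.1 this).2]

lemma Sg.cover (h : Sg T C) (δ : NNReal) {κ : ℝ} (hκ : κ ≤ 1 / 4) (b : ℕ) :
    ‖T δ (ee b) - ee b‖ ≤ 1 / 2 ∨ ∃ j : ℕ, κ ≤ ‖T (δ / 2 ^ j) (ee b) - ee b‖ ∧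
      ‖T (δ / 2 ^ j) (ee b) - ee b‖ ≤ 1 / 2 := by
  have hex : ∃ j : ℕ, ‖T (δ / 2 ^ j) (ee b) - ee b‖ ≤ 1 / 2 := by
    have t1 : Tendsto (fun j : ℕ => δ / 2 ^ j) atTop (𝓝 0) := by
      have := (NNReal.tendsto_pow_atTop_nhds_zero_of_lt_one (r := 1 / 2)
        (by norm_num)).const_mul δ
      rw [mul_zero] at this
      refine this.congr (fun j => ?_)
      rw [one_div, inv_pow, div_eq_mul_inv]
    have t2 := (((h.cont (ee b)).tendsto 0).comp t1).sub_const (ee b)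
    rw [h.zero, ContinuousLinearMap.id_apply, sub_self] at t2
    have t3 := t2.norm
    rw [norm_zero] at t3
    exact (t3.eventually (ge_mem_nhds (by norm_num : (0 : ℝ) < 1 / 2))).exists
  classical
  have h1 := Nat.find_spec hex
  rcases hj : Nat.find hex with _ | j
  · left
    rw [hj] at h1
    simpa using h1
  · right
    have h2 := Nat.find_min hex (m := j) (by omega)
    rw [hj] at h1
    refine ⟨j + 1, ?_, h1⟩
    have e : δ / 2 ^ j = δ / 2 ^ (j + 1) + δ / 2 ^ (j + 1) := by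
      rw [pow_succ]
      field_simp
      norm_num
    have e2 : T (δ / 2 ^ j) (ee b) - ee b = T (δ / 2 ^ (j + 1))
        (T (δ / 2 ^ (j + 1)) (ee b) - ee b) + (T (δ / 2 ^ (j + 1)) (ee b) - ee b) := by
      rw [map_sub, ← h.add_apply, ← e]
      abel
    have e3 := norm_add_le (T (δ / 2 ^ (j + 1)) (T (δ / 2 ^ (j + 1)) (ee b) - ee b))
      (T (δ / 2 ^ (j + 1)) (ee b) - ee b)
    have e4 := (h.mk' (δ / 2 ^ (j + 1))).contr (T (δ / 2 ^ (j + 1)) (ee b) - ee b)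
    rw [← e2] at e3
    linarith [not_le.1 h2]

lemma Sg.count (h : Sg T C) {δ : NNReal} {ε : ℝ} (hε : 0 < ε) (hε1 : 4 * C * ε ≤ 1 / 4)
    {m a : ℕ} (ha : 4 * C * ε ≤ ‖T δ (ee a) - ee a‖) (hm : (m + 1) * δ ≤ 1) :
    m * (ε / 2) ≤ 1 / (ε ^ 2 / 2) + 2 * (1 / (ε * (ε ^ 2 / 2))) := by
  have hC := h.one_le
  have hε2 : ε ≤ 1 := by nlinarith
  obtain ⟨N, hN⟩ := h.tail a (c := ε / 2) (by positivity)
  set W := 1 / (ε * (ε ^ 2 / 2)) with hW
  have hW0 : 0 ≤ W := by positivity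
  let B : ℕ → Set ℕ := fun j => {b | 4 * C * ε ≤ ‖T (δ / 2 ^ j) (ee b) - ee b‖ ∧
      ‖T (δ / 2 ^ j) (ee b) - ee b‖ ≤ 1 / 2}
  let Λ : Set ℕ := {b | ‖T δ (ee b) - ee b‖ ≤ 1 / 2}
  obtain ⟨J, hJ⟩ : ∃ J : ℕ, ∀ b < N, b ∈ Λ ∨ ∃ j < J + 1, b ∈ B j := by
    have h1 : ∀ b, ∃ j, b ∈ Λ ∨ b ∈ B j := fun b => by
      rcases h.cover δ hε1 b with h1 | ⟨j, h1⟩
      · exact ⟨0, Or.inl h1⟩
      · exact ⟨j, Or.inr h1⟩
    choose f hf using h1
    refine ⟨(Finset.range N).sup f, fun b hb => ?_⟩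
    rcases hf b with h1 | h1
    · exact Or.inl h1
    · exact Or.inr ⟨f b, Nat.lt_succ_of_le (Finset.le_sup (Finset.mem_range.2 hb)), h1⟩
  have hmδ : m * δ ≤ 1 := le_trans (mul_le_mul_of_nonneg_right le_self_add zero_le) hm
  have pt : ∀ t : NNReal, t ≤ 1 → 1 - ε / 2 ≤ pr (ind Λ) (T t (ee a))
      + ∑ j ∈ Finset.range (J + 1), pr (ind (B j)) (T t (ee a)) := by
    intro t ht
    rw [← pr_sum, ← pr_add]
    refine (hN t ht).trans (pr_mono (fun x => ?_) (h.orbit_pos t a))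
    rw [ap_add, BoundedContinuousFunction.sum_apply]
    have n1 := ind_nonneg Λ x
    have n2 : 0 ≤ ∑ j ∈ Finset.range (J + 1), ind (B j) x :=
      Finset.sum_nonneg (fun j _ => ind_nonneg _ _)
    by_cases hx : x ∈ Set.Iio N
    · rw [ind_mem hx]
      rcases hJ x hx with h1 | ⟨j, hj, h1⟩
      · rw [ind_mem h1]; linarith
      · have := Finset.single_le_sum (f := fun j => ind (B j) x) (fun j _ => ind_nonneg _ _)
          (Finset.mem_range.2 hj)
        rw [ind_mem h1] at this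
        linarith
    · rw [ind_not hx]; linarith
  have s0 : ∑ i ∈ Finset.range (m * 2 ^ J), (1 - ε / 2) ≤
      ∑ i ∈ Finset.range (m * 2 ^ J), (pr (ind Λ) (T (i * (δ / 2 ^ J)) (ee a))
      + ∑ j ∈ Finset.range (J + 1), pr (ind (B j)) (T (i * (δ / 2 ^ J)) (ee a))) := by
    refine Finset.sum_le_sum (fun i hi => pt _ (le_trans ?_ hmδ))
    have hi' : (i : NNReal) ≤ m * 2 ^ J := by exact_mod_cast (Finset.mem_range.1 hi).le
    calc (i : NNReal) * (δ / 2 ^ J) ≤ (m * 2 ^ J) * (δ / 2 ^ J) :=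
          mul_le_mul_of_nonneg_right hi' zero_le
      _ = m * δ := by field_simp
  rw [Finset.sum_add_distrib, Finset.sum_comm, Finset.sum_const, Finset.card_range,
    nsmul_eq_mul] at s0
  have s1 : ∑ i ∈ Finset.range (m * 2 ^ J), pr (ind Λ) (T (i * (δ / 2 ^ J)) (ee a))
      ≤ 2 ^ J * (1 / (ε ^ 2 / 2) + m * (1 - ε)) := by
    rw [grid (fun i => pr (ind Λ) (T (i * (δ / 2 ^ J)) (ee a)))]
    refine (Finset.sum_le_card_nsmul _ _ (1 / (ε ^ 2 / 2) + m * (1 - ε)) (fun r hr => ?_)).trans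
      (by rw [Finset.card_range, nsmul_eq_mul]; push_cast; exact le_rfl)
    have hr' : (r : NNReal) ≤ 2 ^ J := by exact_mod_cast (Finset.mem_range.1 hr).le
    have := h.base (s := r * (δ / 2 ^ J)) hε hε2 ha (m := m) (le_trans (by
      calc (m : NNReal) * δ + r * (δ / 2 ^ J) ≤ m * δ + 2 ^ J * (δ / 2 ^ J) := by gcongr
        _ = (m + 1) * δ := by field_simp) hm)
    refine le_trans (le_of_eq (Finset.sum_congr rfl (fun t _ => ?_))) this
    congr 3
    push_cast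
    field_simp
  have s2 : ∀ j ∈ Finset.range (J + 1),
      ∑ i ∈ Finset.range (m * 2 ^ J), pr (ind (B j)) (T (i * (δ / 2 ^ J)) (ee a))
      ≤ (1 / 2) ^ j * (2 ^ J * W) := by
    intro j hj
    obtain ⟨k, rfl⟩ := Nat.exists_eq_add_of_le (Nat.le_of_lt_succ (Finset.mem_range.1 hj))
    have e : m * 2 ^ (j + k) = (m * 2 ^ j) * 2 ^ k := by ring
    rw [e, grid (fun i => pr (ind (B j)) (T (i * (δ / 2 ^ (j + k))) (ee a)))]
    refine (Finset.sum_le_card_nsmul _ _ W (fun r hr => ?_)).trans (le_of_eq ?_)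
    · have := h.level (δ := δ / 2 ^ j) hε hε2 (n := m * 2 ^ j) (le_trans (le_of_eq (by
        push_cast
        field_simp)) hmδ) (r * (δ / 2 ^ (j + k))) a
      refine le_trans (le_of_eq (Finset.sum_congr rfl (fun t _ => ?_))) this
      congr 3
      push_cast
      rw [pow_add]
      field_simp
    · rw [Finset.card_range, nsmul_eq_mul]
      push_cast
      rw [pow_add, one_div, inv_pow]
      field_simp
  have s3 := Finset.sum_le_sum s2
  rw [← Finset.sum_mul] at s3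
  have s4 := mul_le_mul_of_nonneg_right (sum_geometric_two_le (J + 1))
    (show (0 : ℝ) ≤ 2 ^ J * W by positivity)
  push_cast at s0
  have s5 : (2 : ℝ) ^ J * (m * (ε / 2)) ≤ 2 ^ J * (1 / (ε ^ 2 / 2) + 2 * W) := by linarith
  exact le_of_mul_le_mul_left s5 (by positivity)

theorem Sg.tendsto (h : Sg T C) : Tendsto T (𝓝 0) (𝓝 (ContinuousLinearMap.id ℝ E)) := by
  have hC := h.one_le
  rw [Metric.tendsto_nhds]
  intro κ hκ
  obtain ⟨ε, hε, hε1, hε2⟩ : ∃ ε : ℝ, 0 < ε ∧ 4 * C * ε ≤ 1 / 4 ∧ 4 * C * ε < κ := by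
    refine ⟨min (1 / 4) (κ / 2) / (4 * C), by positivity, ?_, ?_⟩
    · rw [mul_div_cancel₀ _ (by positivity)]
      exact min_le_left _ _
    · rw [mul_div_cancel₀ _ (by positivity)]
      exact (min_le_right _ _).trans_lt (by linarith)
  obtain ⟨m, hm⟩ := exists_nat_gt ((1 / (ε ^ 2 / 2) + 2 * (1 / (ε * (ε ^ 2 / 2)))) / (ε / 2))
  rw [div_lt_iff₀ (by positivity)] at hm
  have ev : ∀ᶠ δ : NNReal in 𝓝 0, δ ≤ 1 / (m + 1) := ge_mem_nhds (by positivity)
  filter_upwards [ev] with δ hδ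
  have hδ' : (m + 1) * δ ≤ 1 := by
    rw [le_div_iff₀ (by positivity)] at hδ
    rwa [mul_comm]
  have key : ∀ a, ‖(T δ - ContinuousLinearMap.id ℝ E) (ee a)‖ ≤ 4 * C * ε := by
    intro a
    by_contra hcon
    exact absurd (h.count hε hε1 (not_le.1 hcon).le hδ') (not_le.2 hm)
  rw [dist_eq_norm]
  exact (ContinuousLinearMap.opNorm_le_bound _ (by positivity) (norm_le_of_ee _ key)).trans_lt hε2

end Pool.Agent.H587Z.Markov
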